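import Pool.Agent.helper23.CU.Spec

/-! PH: properties of the phase. -/

open Finset Filter Topology

namespace CU

theorem PH (hLO : LO_stmt) (hFP : FP_stmt) (hLIN : LIN_stmt) (hFLP : FLP_stmt) : PH_stmt := by
  intro d n r _ hd hn β
  have h1 : ∀ σ ∈ Ph (d := d) (n := n) r, flipc σ ∉ Ph r := by
    rintro σ ⟨-, h2⟩ ⟨-, h4⟩
    rw [(hFP d n r σ).2.2, h2] at h4
    exact absurd h4 (by decide)
  refine ⟨h1, ?_, ?_⟩
  · rintro σ ⟨hg, h2⟩ x b ⟨hg', h4⟩
    rw [(hFP d n r _).2.2] at h4
    rw [(hFP d n r _).2.1] at hg'
    have h5 := hLO d n r 0 hd (by omega) x σ (Function.update σ x b) hg hg' (by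
      intro y hy
      have : y ≠ x := by
        rintro rfl
        refine hy ?_
        unfold Box
        rw [Finset.mem_filter]
        refine ⟨Finset.mem_univ _, fun k => ?_⟩
        rw [sub_self]
        simp
      rw [Function.update_of_ne this])
    rw [← h5, h2] at h4
    exact absurd h4 (by decide)
  · set F : Conf d n → ℝ := (Ph (d := d) (n := n) r).indicator fun _ => 1 with hF
    set G : Conf d n → ℝ := ({σ : Conf d n | ¬ Good r σ}).indicator fun _ => 1 with hG
    have key : ∀ σ, 1 * (1 * F σ + 1 * F (flipc σ)) + 1 * G σ = 1 := by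
      intro σ
      by_cases hg : Good r σ
      · have hG0 : G σ = 0 := Set.indicator_of_notMem (show σ ∉ {σ : Conf d n | ¬ Good r σ} from fun h => h hg) _
        have hg' : Good r (flipc σ) := (hFP d n r σ).2.1.2 hg
        have h2 := (hFP d n r σ).2.2
        have h3 : eps r σ = 1 ∨ eps r σ = 0 := by
          generalize eps r σ = z
          revert z
          decide
        rcases h3 with h3 | h3
        · have hs : σ ∈ Ph r := ⟨hg, h3⟩
          have e1 : F σ = 1 := Set.indicator_of_mem hs _
          have e2 : F (flipc σ) = 0 := Set.indicator_of_notMem (h1 σ hs) _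
          rw [e1, e2, hG0]; norm_num
        · have hs : flipc σ ∈ Ph r := ⟨hg', by rw [h2, h3, zero_add]⟩
          have hs' : σ ∉ Ph r := fun h => by
            have := h.2
            rw [h3] at this
            exact absurd this (by decide)
          have e1 : F (flipc σ) = 1 := Set.indicator_of_mem hs _
          have e2 : F σ = 0 := Set.indicator_of_notMem hs' _
          rw [e1, e2, hG0]; norm_num
      · have hG0 : G σ = 1 := Set.indicator_of_mem (show σ ∈ {σ : Conf d n | ¬ Good r σ} from hg) _
        have e1 : F σ = 0 := Set.indicator_of_notMem (fun h => hg h.1) _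
        have e2 : F (flipc σ) = 0 := Set.indicator_of_notMem (fun h => hg ((hFP d n r σ).2.1.1 h.1)) _
        rw [e1, e2, hG0]; norm_num
    have l1 := (hLIN d n β (fun σ => 1 * F σ + 1 * F (flipc σ)) G 1 1 0).2.2.1
    have l2 := (hLIN d n β F (fun σ => F (flipc σ)) 1 1 0).2.2.1
    have l3 := (hFLP d n β F 0).2.1
    have l4 := (hLIN d n β F F 1 1 0).2.2.2.2
    rw [funext key, l4] at l1
    rw [l3] at l2
    have e1 : PrE β (Ph (d := d) (n := n) r) = Ex β F := rfl
    have e2 : PrE β {σ : Conf d n | ¬ Good r σ} = Ex β G := rfl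
    rw [e1, e2]
    linarith

end CU
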