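import Pool.Agent.helper23.CU.SpecE

/-! QB: binomial expansion. -/

open Finset Filter Topology

namespace CU

theorem QB_sum {α : Type} [DecidableEq α] (F η : Finset α) (hη : η ⊆ F) (a : ℝ) :
    ∑ ω ∈ F.powerset.filter (fun ω => η ⊆ ω), a ^ ω.card = a ^ η.card * (1 + a) ^ (F.card - η.card) := by
  have h1 : ∑ ω ∈ F.powerset.filter (fun ω => η ⊆ ω), a ^ ω.card = ∑ τ ∈ (F \ η).powerset, a ^ (τ.card + η.card) := by
    refine Finset.sum_nbij' (fun ω => ω \ η) (fun τ => τ ∪ η) ?_ ?_ ?_ ?_ ?_
    · intro ω hω
      rw [Finset.mem_filter, Finset.mem_powerset] at hω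
      rw [Finset.mem_powerset]
      exact Finset.sdiff_subset_sdiff hω.1 (Finset.Subset.refl _)
    · intro τ hτ
      rw [Finset.mem_powerset] at hτ
      rw [Finset.mem_filter, Finset.mem_powerset]
      exact ⟨Finset.union_subset (hτ.trans Finset.sdiff_subset) hη, Finset.subset_union_right⟩
    · intro ω hω
      rw [Finset.mem_filter, Finset.mem_powerset] at hω
      exact Finset.sdiff_union_of_subset hω.2
    · intro τ hτ
      rw [Finset.mem_powerset] at hτ
      have hd : Disjoint τ η := Finset.disjoint_of_subset_left hτ Finset.sdiff_disjoint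
      change (τ ∪ η) \ η = τ
      rw [Finset.union_sdiff_right]
      exact Finset.sdiff_eq_self_of_disjoint hd
    · intro ω hω
      rw [Finset.mem_filter, Finset.mem_powerset] at hω
      rw [Finset.card_sdiff_add_card_eq_card hω.2]
  have h2 := Finset.sum_pow_mul_eq_add_pow a 1 (F \ η)
  simp only [one_pow, mul_one] at h2
  rw [h1]
  simp only [pow_add]
  rw [← Finset.sum_mul, h2, Finset.card_sdiff_of_subset hη, mul_comm, add_comm a 1]

theorem QB : QB_stmt := by
  intro n F P x hx0 hx1
  classical
  have h1x : (0 : ℝ) < 1 - x := by linarith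
  set a : ℝ := x / (1 - x) with ha
  have hcard : ∀ ω ∈ F.powerset, a ^ ω.card * (open Classical in ((ω.powerset.filter fun η => P η).card : ℝ)) =
      ∑ η ∈ F.powerset, if η ⊆ ω then (if P η then a ^ ω.card else 0) else 0 := by
    intro ω hω
    rw [Finset.mem_powerset] at hω
    rw [← Finset.sum_filter]
    have h2 : F.powerset.filter (fun η => η ⊆ ω) = ω.powerset := by
      ext η
      rw [Finset.mem_filter, Finset.mem_powerset, Finset.mem_powerset]
      exact ⟨fun h => h.2, fun h => ⟨h.trans hω, h⟩⟩
    rw [h2, ← Finset.sum_filter, Finset.sum_const, nsmul_eq_mul, mul_comm]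
  rw [Finset.sum_congr rfl hcard, Finset.sum_comm, Finset.mul_sum]
  refine Finset.sum_congr rfl fun η hη => ?_
  rw [Finset.mem_powerset] at hη
  by_cases hP : P η
  · simp only [if_pos hP]
    rw [← Finset.sum_filter, QB_sum F η hη a]
    have h3 : 1 + a = (1 - x)⁻¹ := by rw [ha]; field_simp; ring
    have h4 : F.card = η.card + (F.card - η.card) := by
      have := Finset.card_le_card hη
      omega
    rw [h3]
    conv_rhs => rw [h4]
    rw [Nat.add_sub_cancel_left, pow_add, inv_pow, ha, div_pow]
    field_simp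
  · simp only [if_neg hP, ite_self, Finset.sum_const_zero, mul_zero]

end CU
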