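import Pool.Agent.helper23.CU.SpecE

/-! QC: two point function and the connection inequality. -/

open Finset Filter Topology

namespace CU

open Classical in
theorem QC_card {n : ℕ} (ω γ : Finset (Edge 2 n)) (P Q : Finset (Edge 2 n) → Prop)
    (f : Finset (Edge 2 n) → Finset (Edge 2 n)) (hf : Function.Injective f)
    (h : ∀ η ⊆ ω, P η → f η ⊆ ω ∧ Q (f η)) :
    ((ω.powerset.filter fun η => P η).card : ℝ) ≤ ((ω.powerset.filter fun η => Q η).card : ℝ) := by
  refine Nat.cast_le.2 (Finset.card_le_card_of_injOn f ?_ hf.injOn)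
  intro η hη
  simp only [Finset.coe_filter, Finset.mem_powerset, Set.mem_ofPred_eq] at hη ⊢
  exact h η hη.1 hη.2

theorem QC_sub {n : ℕ} {η γ ω : Finset (Edge 2 n)} (h1 : η ⊆ ω) (h2 : γ ⊆ ω) : symmDiff η γ ⊆ ω := by
  intro e he
  rcases Finset.mem_symmDiff.1 he with h | h
  · exact h1 h.1
  · exact h2 h.1

theorem QC_add {n : ℕ} (S : Site 2 n → ZMod 2) : S + S = 0 := by
  funext v
  change S v + S v = 0
  generalize S v = z
  revert z
  decide

theorem QC (hQA : QA_stmt) (hQB : QB_stmt) : QC_stmt := by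
  intro n hn F x hx0 hx1 u w
  classical
  have ha : 0 < x / (1 - x) := div_pos hx0 (by linarith)
  have hZ : ∀ S : Site 2 n → ZMod 2, Zs F S x = (1 - x) ^ F.card * ∑ ω ∈ F.powerset, (x / (1 - x)) ^ ω.card *
      (open Classical in ((ω.powerset.filter fun η => bd η = S).card : ℝ)) := by
    intro S
    rw [← hQB n F (fun η => bd η = S) x hx0 hx1]
    unfold Zs
    exact Finset.sum_filter _ _
  have hnn : ∀ S : Site 2 n → ZMod 2, 0 ≤ Zs F S x := by
    intro S
    unfold Zs
    exact Finset.sum_nonneg fun η _ => by positivity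
  have hcmp : ∀ P Q : Finset (Edge 2 n) → Prop, (∀ ω ⊆ F, (open Classical in
      ((ω.powerset.filter fun η => P η).card : ℝ)) ≤ (open Classical in
      ((ω.powerset.filter fun η => Q η).card : ℝ))) →
      (1 - x) ^ F.card * ∑ ω ∈ F.powerset, (x / (1 - x)) ^ ω.card *
      (open Classical in ((ω.powerset.filter fun η => P η).card : ℝ)) ≤
      (1 - x) ^ F.card * ∑ ω ∈ F.powerset, (x / (1 - x)) ^ ω.card *
      (open Classical in ((ω.powerset.filter fun η => Q η).card : ℝ)) := by
    intro P Q h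
    refine mul_le_mul_of_nonneg_left ?_ (pow_nonneg (by linarith) _)
    exact Finset.sum_le_sum fun ω hω =>
      mul_le_mul_of_nonneg_left (h ω (Finset.mem_powerset.1 hω)) (pow_nonneg ha.le _)
  refine ⟨?_, hnn _, ?_, ?_⟩
  · unfold Zs
    refine lt_of_lt_of_le (by norm_num : (0 : ℝ) < x ^ (∅ : Finset (Edge 2 n)).card) ?_
    refine Finset.single_le_sum (f := fun η : Finset (Edge 2 n) => x ^ η.card) (fun η _ => by positivity) ?_
    rw [Finset.mem_filter]
    exact ⟨Finset.empty_mem_powerset _, by funext v; simp [bd]⟩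
  · rw [hZ, hZ]
    refine hcmp _ _ fun ω _ => ?_
    by_cases h : ∃ γ ⊆ ω, bd γ = src u w
    · obtain ⟨γ, h1, h2⟩ := h
      refine QC_card ω γ _ _ (fun η => symmDiff η γ) (symmDiff_left_injective γ) fun η hη hb => ?_
      exact ⟨QC_sub hη h1, by rw [(hQA n hn).1, hb, h2, QC_add]⟩
    · push Not at h
      classical
      refine (Nat.cast_le.2 (Finset.card_le_card (?_ : _ ⊆ (∅ : Finset (Finset (Edge 2 n)))))).trans (by simp)
      intro η hη
      simp only [Finset.mem_filter, Finset.mem_powerset] at hη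
      exact absurd hη.2 (h η hη.1)
  · have h0 := hQB n F (fun η => bd η = 0 ∧ (dG η).Reachable u w) x hx0 hx1
    refine le_of_eq_of_le ((Finset.sum_filter _ _).trans
      ((Finset.sum_congr rfl fun η _ => by split_ifs <;> rfl).trans h0)) ?_
    rw [hZ]
    refine hcmp _ _ fun ω _ => ?_
    by_cases h : ∃ η ⊆ ω, bd η = 0 ∧ (dG η).Reachable u w
    · obtain ⟨η₀, h1, h2, h3⟩ := h
      obtain ⟨γ, h4, h5⟩ := (hQA n hn).2 η₀ u w h3
      refine QC_card ω γ _ _ (fun η => symmDiff η γ) (symmDiff_left_injective γ) fun η hη hb => ?_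
      exact ⟨QC_sub hη (h4.trans h1), by rw [(hQA n hn).1, hb.1, h5, zero_add]⟩
    · push Not at h
      classical
      refine (Nat.cast_le.2 (Finset.card_le_card (?_ : _ ⊆ (∅ : Finset (Finset (Edge 2 n)))))).trans (by simp)
      intro η hη
      simp only [Finset.mem_filter, Finset.mem_powerset] at hη
      exact absurd hη.2.2 (h η hη.1 hη.2.1)

end CU
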