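import Pool.Agent.helper23.CU.SpecE

/-! QH: iteration of the Simon-Lieb inequality. -/

open Finset Filter Topology

namespace CU

theorem QH_abs_add {n : ℕ} [NeZero n] (a b : ZMod n) :
    (a + b).valMinAbs.natAbs ≤ a.valMinAbs.natAbs + b.valMinAbs.natAbs :=
  (ZMod.natAbs_valMinAbs_add_le a b).trans (Int.natAbs_add_le _ _)

theorem QH_abs_int {n : ℕ} [NeZero n] (z : ℤ) : ((z : ZMod n)).valMinAbs.natAbs ≤ z.natAbs :=
  ZMod.natAbs_min_of_le_div_two n _ z (by simp) (ZMod.natAbs_valMinAbs_le _)

theorem QH_tri {d n : ℕ} [NeZero n] {a b : ℕ} {u v w : Site d n} (h1 : Near a u v) (h2 : Near b v w) :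
    Near (a + b) u w := by
  intro k
  have : w k - u k = (v k - u k) + (w k - v k) := by ring
  rw [this]
  exact (QH_abs_add _ _).trans (add_le_add (h1 k) (h2 k))

theorem QH_mono {d n : ℕ} {a b : ℕ} (hab : a ≤ b) {u v : Site d n} (h1 : Near a u v) : Near b u v :=
  fun k => (h1 k).trans hab

theorem QH_dn {n : ℕ} [NeZero n] (e : Edge 2 n) : Near 1 e.1 (dn e) ∧ Near 1 (dn e) e.1 := by
  constructor
  · intro k
    unfold dn
    rw [Pi.sub_apply]
    by_cases h : k = 1 - e.2
    · subst h
      have : e.1 (1 - e.2) - (ev (1 - e.2) : Site 2 n) (1 - e.2) - e.1 (1 - e.2) = ((-1 : ℤ) : ZMod n) := by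
        unfold ev; rw [Pi.single_eq_same]; push_cast; ring
      rw [this]
      exact QH_abs_int _
    · have : e.1 k - (ev (1 - e.2) : Site 2 n) k - e.1 k = ((0 : ℤ) : ZMod n) := by
        unfold ev; rw [Pi.single_eq_of_ne h]; push_cast; ring
      rw [this]
      exact (QH_abs_int _).trans (by simp)
  · intro k
    unfold dn
    rw [Pi.sub_apply]
    by_cases h : k = 1 - e.2
    · subst h
      have : e.1 (1 - e.2) - (e.1 (1 - e.2) - (ev (1 - e.2) : Site 2 n) (1 - e.2)) = ((1 : ℤ) : ZMod n) := by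
        unfold ev; rw [Pi.single_eq_same]; push_cast; ring
      rw [this]
      exact QH_abs_int _
    · have : e.1 k - (e.1 k - (ev (1 - e.2) : Site 2 n) k) = ((0 : ℤ) : ZMod n) := by
        unfold ev; rw [Pi.single_eq_of_ne h]; push_cast; ring
      rw [this]
      exact (QH_abs_int _).trans (by simp)

theorem QH_outn {n : ℕ} [NeZero n] (r : ℕ) (u : Site 2 n) (e : Edge 2 n) (he : e ∈ cut r u) :
    Near (r + 1) u (outn r u e) := by
  unfold cut at he
  rw [Finset.mem_filter] at he
  unfold outn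
  rcases he.2 with ⟨h1, h2⟩ | ⟨h1, h2⟩
  · rw [if_pos h1]
    exact QH_tri ((Finset.mem_filter.1 h1).2) (QH_dn e).1
  · rw [if_neg h1]
    exact QH_tri ((Finset.mem_filter.1 h2).2) (QH_dn e).2

theorem QH (hQC : QC_stmt) (hQG : QG_stmt) : QH_stmt := by
  intro n r _ hn x hx0 hx1 hsum q
  induction q with
  | zero =>
    intro u w _
    obtain ⟨h1, h2, h3, -⟩ := hQC n hn univ x hx0 hx1 u w
    unfold corr
    rw [pow_zero]
    exact (div_le_one h1).2 h3
  | succ q ih =>
    intro u w hw
    have hwB : w ∉ Box r u := by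
      intro h
      refine hw (QH_mono ?_ (Finset.mem_filter.1 h).2)
      nlinarith [Nat.zero_le (q * (r + 1))]
    have huB : u ∈ Box r u := by
      unfold Box
      rw [Finset.mem_filter]
      refine ⟨Finset.mem_univ _, fun k => ?_⟩
      rw [sub_self]
      simp
    refine (hQG n r hn u u w x hx0 hx1 huB hwB).trans ?_
    have hstep : ∑ e ∈ cut r u, x * corr (FS r u) x u (inn r u e) * corr univ x (outn r u e) w ≤
        ∑ e ∈ cut r u, x * corr (FS r u) x u (inn r u e) * (1 / 2) ^ q := by
      refine Finset.sum_le_sum fun e he => ?_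
      refine mul_le_mul_of_nonneg_left (ih _ _ ?_) ?_
      · intro h
        refine hw ?_
        have h5 := QH_tri (QH_outn r u e he) h
        have : r + 1 + q * (r + 1) = (q + 1) * (r + 1) := by ring
        rwa [this] at h5
      · obtain ⟨h1, h2, -, -⟩ := hQC n hn (FS r u) x hx0 hx1 u (inn r u e)
        exact mul_nonneg hx0.le (div_nonneg h2 h1.le)
    refine hstep.trans ?_
    rw [← Finset.sum_mul, pow_succ, mul_comm]
    exact mul_le_mul_of_nonneg_left (hsum u) (by positivity)

end CU
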